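import Pool.Agent.TH280.DH.Stm

/-! MP_540347_an (S04695), piece S_MAJ, helper802. -/

set_option autoImplicit false

namespace Pool.Agent.TH802.DHMaj

open Complex Polynomial Filter Topology InnerProductSpace Real MeasureTheory Metric
open Pool.Agent.TH280.DH

noncomputable def L : E2 ≃ₗᵢ[ℝ] ℂ := Complex.orthonormalBasisOneI.repr.symm

lemma L_apply (x : E2) : L x = cz x := by
  unfold L cz
  rw [← OrthonormalBasis.sum_repr_symm]
  simp [Fin.sum_univ_two]

lemma lap_comp (f : ℂ → ℝ) (x : E2) : Laplacian.laplacian (fun y : E2 => f (L y)) x = Laplacian.laplacian f (L x) := by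
  rw [laplacian_eq_iteratedFDeriv_orthonormalBasis _ (EuclideanSpace.basisFun (Fin 2) ℝ),
    laplacian_eq_iteratedFDeriv_orthonormalBasis _ Complex.orthonormalBasisOneI]
  refine Finset.sum_congr rfl fun i _ => ?_
  have h := ContinuousLinearEquiv.iteratedFDerivWithin_comp_right (𝕜 := ℝ)
    L.toContinuousLinearEquiv f uniqueDiffOn_univ (x := x) (Set.mem_univ _) 2
  simp only [Set.preimage_univ, iteratedFDerivWithin_univ] at h
  have h2 : iteratedFDeriv ℝ 2 (fun y : E2 => f (L y)) x
      = (iteratedFDeriv ℝ 2 f (L x)).compContinuousLinearMap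
        (fun _ => (L.toContinuousLinearEquiv : E2 →L[ℝ] ℂ)) := h
  rw [h2, ContinuousMultilinearMap.compContinuousLinearMap_apply]
  congr 1
  ext j
  fin_cases j <;> simp [L]

lemma harm_comp {f : ℂ → ℝ} {x : E2} (hf : HarmonicAt f (L x)) :
    HarmonicAt (fun y : E2 => f (L y)) x := by
  refine ⟨?_, ?_⟩
  · exact hf.1.comp x L.toContinuousLinearEquiv.contDiff.contDiffAt
  · have h : Tendsto (fun y : E2 => L y) (𝓝 x) (𝓝 (L x)) := L.continuous.tendsto x
    have := h.eventually hf.2
    filter_upwards [this] with y hy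
    rw [lap_comp, hy]
    rfl

lemma tang (p S t : ℝ) (hp : 1 < p) (hS : 0 < S) (ht : 0 ≤ t) :
    S ^ p + p * S ^ (p - 1) * (t - S) ≤ t ^ p := by
  have h := one_add_mul_self_le_rpow_one_add (s := t / S - 1) (p := p)
    (by have : 0 ≤ t / S := by positivity
        linarith) hp.le
  have e : 1 + (t / S - 1) = t / S := by ring
  rw [e, Real.div_rpow ht hS.le, le_div_iff₀ (by positivity)] at h
  have e2 : S ^ p = S ^ (p - 1) * S := by
    rw [← Real.rpow_add_one hS.ne']; congr 1; ring
  calc S ^ p + p * S ^ (p - 1) * (t - S) = (1 + p * (t / S - 1)) * S ^ p := by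
        rw [e2]; field_simp
    _ ≤ t ^ p := h

/-- Poisson -/
lemma poisson (Q : ℂ[X]) {w : ℂ} (hw : w ∈ ball (0 : ℂ) 1) :
    Real.circleAverage ((Complex.re ∘ herglotzRieszKernel 0 w) • fun z => (Q.eval z).re) 0 1
      = (Q.eval w).re := by
  refine HarmonicOnNhd.circleAverage_re_herglotzRieszKernel_smul ?_ hw
  intro x _
  exact AnalyticAt.harmonicAt_re (f := fun z => Q.eval z) (by
    have : Differentiable ℂ (fun z : ℂ => Q.eval z) := Q.differentiable
    exact this.analyticAt x)

theorem main : S_MAJ := by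
  intro ι _ P p hp
  set Φ : ℂ → ℝ := fun z => (Real.sqrt (∑ i, ((P i).eval z).re ^ 2)) ^ p with hΦ
  have hc : Continuous Φ := by
    refine Continuous.rpow_const ?_ (fun x => Or.inr (by linarith))
    refine Real.continuous_sqrt.comp ?_
    refine continuous_finsetSum _ fun i _ => ?_
    exact (Complex.continuous_re.comp (P i).continuous).pow 2
  have hI : CircleIntegrable Φ 0 1 := hc.continuousOn.circleIntegrable zero_le_one
  have hIc : CircleIntegrable (fun z => (Φ z : ℂ)) 0 1 :=
    (Complex.continuous_ofReal.comp hc).continuousOn.circleIntegrable zero_le_one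
  set H : ℂ → ℂ := fun w => Real.circleAverage (fun ζ => herglotzRieszKernel 0 w ζ • (Φ ζ : ℂ)) 0 1
    with hH
  have hA : AnalyticOnNhd ℂ H (ball 0 1) :=
    analyticOnNhd_circleAverage_herglotzRieszKernel_smul hIc
  have hmem : ∀ x ∈ ball (0 : E2) 1, L x ∈ ball (0 : ℂ) 1 := by
    intro x hx
    rw [mem_ball_zero_iff] at hx ⊢
    rwa [L.norm_map]
  refine ⟨fun x => (H (L x)).re, ?_, ?_, ?_⟩
  · intro x hx
    exact harm_comp (f := fun w => (H w).re) (AnalyticAt.harmonicAt_re (hA _ (hmem x hx)))
  · intro x hx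
    rw [← L_apply]
    have hw := hmem x hx
    set w := L x with hwd
    have e1 : (H w).re = Real.circleAverage ((Complex.re ∘ herglotzRieszKernel 0 w) • Φ) 0 1 :=
      re_circleAverage_herglotzRieszKernel_smul hI hw
    show _ ≤ (H w).re
    rw [e1]
    have hkc : ContinuousOn (Complex.re ∘ herglotzRieszKernel 0 w) (sphere 0 |(1:ℝ)|) :=
      Complex.continuous_re.comp_continuousOn (continuousOn_herglotzRieszKernel_sphere hw)
    have hkpos : ∀ ζ ∈ sphere (0 : ℂ) |(1 : ℝ)|, 0 ≤ (herglotzRieszKernel 0 w ζ).re := by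
      intro ζ hζ
      rw [abs_one] at hζ
      have := le_re_herglotzRieszKernel hζ hw
      rw [herglotzRieszKernel_def]
      refine le_trans ?_ this
      have : ‖w - 0‖ < 1 := by simpa using hw
      have h0 := norm_nonneg (w - 0)
      apply div_nonneg <;> linarith
    have hint : ∀ g : ℂ → ℝ, Continuous g →
        CircleIntegrable ((Complex.re ∘ herglotzRieszKernel 0 w) • g) 0 1 := by
      intro g hg
      refine ContinuousOn.circleIntegrable zero_le_one ?_
      have := hkc.smul (hg.continuousOn (s := sphere 0 |(1:ℝ)|))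
      simpa using this
    set S : ℝ := Real.sqrt (∑ i, ((P i).eval w).re ^ 2) with hSd
    have hS2 : S ^ 2 = ∑ i, ((P i).eval w).re ^ 2 :=
      Real.sq_sqrt (Finset.sum_nonneg fun i _ => sq_nonneg _)
    have hS0 : 0 ≤ S := Real.sqrt_nonneg _
    rcases hS0.eq_or_lt with hS | hS
    · rw [← hS, Real.zero_rpow (by linarith)]
      have := Real.circleAverage_mono (f₁ := fun _ => (0 : ℝ))
        (f₂ := (Complex.re ∘ herglotzRieszKernel 0 w) • Φ) (c := 0) (R := 1)
        (circleIntegrable_const _ _ _) (hint Φ hc) (by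
          intro ζ hζ
          exact mul_nonneg (hkpos ζ hζ) (Real.rpow_nonneg (Real.sqrt_nonneg _) _))
      simpa [Real.circleAverage_const] using this
    · set Q : ℂ[X] := Polynomial.C ((S ^ p - p * S ^ (p - 1) * S : ℝ) : ℂ)
        + Polynomial.C ((p * S ^ (p - 1) : ℝ) : ℂ) * ∑ i, Polynomial.C (((((P i).eval w).re / S : ℝ)) : ℂ) * P i
        with hQ
      have hQe : ∀ z, (Q.eval z).re = S ^ p + p * S ^ (p - 1) *
          ((∑ i, (((P i).eval w).re / S) * ((P i).eval z).re) - S) := by
        intro z
        simp only [hQ, eval_add, eval_C, eval_mul, eval_finsetSum, Complex.add_re,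
          Complex.ofReal_re, Complex.re_ofReal_mul, Complex.re_sum]
        ring
      have hQw : (Q.eval w).re = S ^ p := by
        rw [hQe]
        have : (∑ i, (((P i).eval w).re / S) * ((P i).eval w).re) = S := by
          have : (∑ i, (((P i).eval w).re / S) * ((P i).eval w).re)
              = (∑ i, ((P i).eval w).re ^ 2) / S := by
            rw [Finset.sum_div]
            exact Finset.sum_congr rfl fun i _ => by ring
          rw [this, ← hS2]
          field_simp
        rw [this]; ring
      rw [← hQw, ← poisson Q hw]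
      refine Real.circleAverage_mono (hint _ (Complex.continuous_re.comp Q.continuous)) (hint Φ hc) ?_
      intro ζ hζ
      show (herglotzRieszKernel 0 w ζ).re * (Q.eval ζ).re ≤ (herglotzRieszKernel 0 w ζ).re * Φ ζ
      refine mul_le_mul_of_nonneg_left ?_ (hkpos ζ hζ)
      rw [hQe]
      set N : ℝ := Real.sqrt (∑ i, ((P i).eval ζ).re ^ 2) with hN
      have hN0 : 0 ≤ N := Real.sqrt_nonneg _
      have h1 : (∑ i, (((P i).eval w).re / S) * ((P i).eval ζ).re) ≤ N := by
        have hcs := Real.sum_mul_le_sqrt_mul_sqrt Finset.univ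
          (fun i => (((P i).eval w).re / S)) (fun i => ((P i).eval ζ).re)
        have h2 : Real.sqrt (∑ i, (((P i).eval w).re / S) ^ 2) = 1 := by
          have : (∑ i, (((P i).eval w).re / S) ^ 2) = 1 := by
            simp_rw [div_pow]
            rw [← Finset.sum_div, ← hS2]
            field_simp
          rw [this, Real.sqrt_one]
        rw [h2, one_mul] at hcs
        exact hcs
      have h3 := tang p S N hp hS hN0
      have h4 : 0 ≤ p * S ^ (p - 1) := by positivity
      calc S ^ p + p * S ^ (p - 1) * ((∑ i, (((P i).eval w).re / S) * ((P i).eval ζ).re) - S)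
          ≤ S ^ p + p * S ^ (p - 1) * (N - S) := by gcongr
        _ ≤ N ^ p := h3
        _ = Φ ζ := rfl
  · show (H (L 0)).re ≤ av Φ
    rw [map_zero]
    have e1 : (H 0).re = Real.circleAverage ((Complex.re ∘ herglotzRieszKernel 0 0) • Φ) 0 1 :=
      re_circleAverage_herglotzRieszKernel_smul hI (by simp)
    rw [e1, av]
    refine le_of_eq (circleAverage_congr_sphere fun ζ hζ => ?_)
    have hζ0 : ζ ≠ 0 := by
      rintro rfl
      simp at hζ
    simp [herglotzRieszKernel_def, hζ0]

end Pool.Agent.TH802.DHMaj
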